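import Pool.Agent.J4H46.K5.Tl

set_option autoImplicit false

namespace Pool.Agent.J4H46.K5

open Finset
open scoped Classical
open Pool.Agent.J4H87.K5

noncomputable section

/-- the sum over the nonempty sets -/
lemma sum_nonempty (n : ℕ) (hn : 2 ≤ n) :
    ∑ X ∈ (univ : Finset (Finset (Fin n))).filter (fun X => X.Nonempty), (1 / (n : ℝ) ^ 3) ^ X.card ≤
      2 / (n : ℝ) ^ 2 := by
  have hn0 : (0 : ℝ) < n := by positivity
  have hn2 : (2 : ℝ) ≤ n := by exact_mod_cast hn
  have h1 : ∑ X ∈ (univ : Finset (Finset (Fin n))), (1 / (n : ℝ) ^ 3) ^ X.card =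
      (1 / (n : ℝ) ^ 3 + 1) ^ n := by
    have h := Finset.sum_pow_mul_eq_add_pow (1 / (n : ℝ) ^ 3) (1 : ℝ) (univ : Finset (Fin n))
    simp only [one_pow, mul_one, card_univ, Fintype.card_fin] at h
    rw [← h]
    apply sum_congr _ (fun _ _ => rfl)
    ext X; simp
  have h2 : ∑ X ∈ (univ : Finset (Finset (Fin n))), (1 / (n : ℝ) ^ 3) ^ X.card =
      ∑ X ∈ (univ : Finset (Finset (Fin n))).filter (fun X => X.Nonempty), (1 / (n : ℝ) ^ 3) ^ X.card + 1 := by
    rw [← sum_filter_add_sum_filter_not univ (fun X : Finset (Fin n) => X.Nonempty)]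
    congr 1
    have h3 : (univ : Finset (Finset (Fin n))).filter (fun X => ¬ X.Nonempty) = {∅} := by
      ext X; simp
    rw [h3]; simp
  have h3 : (1 / (n : ℝ) ^ 3 + 1) ^ n ≤ Real.exp (1 / (n : ℝ) ^ 2) := by
    calc (1 / (n : ℝ) ^ 3 + 1) ^ n ≤ (Real.exp (1 / (n : ℝ) ^ 3)) ^ n := by
          apply pow_le_pow_left₀ (by positivity)
          exact Real.add_one_le_exp _
      _ = Real.exp (1 / (n : ℝ) ^ 2) := by
          rw [← Real.exp_nat_mul]
          congr 1
          field_simp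
  set u : ℝ := 1 / (n : ℝ) ^ 2 with hu
  have hu0 : 0 ≤ u := by positivity
  have hu1 : u ≤ 1 / 4 := by
    rw [hu, div_le_div_iff_of_pos_left one_pos (by positivity) (by norm_num)]
    nlinarith
  have h4 : Real.exp u ≤ 1 + 2 * u := by
    have h := Real.exp_bound_div_one_sub_of_interval hu0 (by linarith : u < 1)
    refine h.trans ?_
    rw [div_le_iff₀ (by linarith)]
    nlinarith
  have h5 : 2 / (n : ℝ) ^ 2 = 2 * u := by rw [hu]; ring
  rw [h5]
  linarith [h1, h2, h3, h4]

lemma exp_log_pow (n : ℕ) (hn : 2 ≤ n) (k : ℕ) :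
    Real.exp (-(3 * k * Real.log n)) = (1 / (n : ℝ) ^ 3) ^ k := by
  have hn0 : (0 : ℝ) < n := by positivity
  rw [Real.exp_neg, one_div, inv_pow, ← pow_mul]
  congr 1
  rw [← Real.exp_log hn0, ← Real.exp_nat_mul]
  simp only [Real.log_exp]
  congr 1
  push_cast; ring

/-- the degrees -/
lemma deg_bad (hTL : S_TL) (n t : ℕ) (hn : 2 ≤ n) (ht : 2 * t ≤ n.choose 2) (x : Fin n) :
    pr (fun ω : Om n => ¬ ((((univ : Finset (Fin n)).filter (fun y => s(x, y) ∈ gr ω t)).card : ℝ) ≤
      2 * rho n t * n + 6 * Real.log n)) ≤ 1 / (n : ℝ) ^ 3 := by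
  have hr := rho_nonneg ht
  have hn0 : (0 : ℝ) < n := by positivity
  have hlog : 0 ≤ Real.log n := Real.log_natCast_nonneg n
  set Pp : Finset (Sym2 (Fin n)) := univ.image (fun y => s(x, y)) with hPp
  have hinj : Function.Injective (fun y : Fin n => s(x, y)) := by
    intro a b hab
    have hab' : s(x, a) = s(x, b) := hab
    rw [Sym2.eq_iff] at hab'
    rcases hab' with h | h
    · exact h.2
    · exact h.2.trans h.1
  have hcard : Pp.card = n := by
    rw [hPp, card_image_of_injective _ hinj]; simp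
  have h1 := hTL n t ht Pp (3 * Real.log n) (by positivity)
  refine (pr_mono ?_).trans (h1.trans (le_of_eq ?_))
  · intro ω hω
    have h2 : ((univ : Finset (Fin n)).filter (fun y => s(x, y) ∈ gr ω t)).card ≤ (gr ω t ∩ Pp).card := by
      apply card_le_card_of_injOn (fun y => s(x, y))
      · intro y hy
        simp only [coe_filter, mem_univ, true_and, Set.mem_ofPred_eq] at hy
        simp only [coe_inter, Set.mem_inter_iff, mem_coe, hPp, mem_image, mem_univ, true_and]
        exact ⟨hy, y, rfl⟩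
      · exact fun a _ b _ hab => hinj hab
    have h3 : (((univ : Finset (Fin n)).filter (fun y => s(x, y) ∈ gr ω t)).card : ℝ) ≤
        ((gr ω t ∩ Pp).card : ℝ) := by exact_mod_cast h2
    rw [not_le] at hω
    rw [hcard]
    linarith
  · have h := exp_log_pow n hn 1
    simp only [Nat.cast_one, mul_one, pow_one] at h
    exact h

/-- the discrepancy -/
lemma disc_bad (hTL : S_TL) (n t : ℕ) (hn : 2 ≤ n) (ht : 2 * t ≤ n.choose 2) (X Y : Finset (Fin n)) :
    pr (fun ω : Om n => ¬ ((((X ×ˢ Y).filter (fun z => s(z.1, z.2) ∈ gr ω t)).card : ℝ) ≤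
      4 * rho n t * X.card * Y.card + 12 * Real.log n * (X.card + Y.card))) ≤
      (1 / (n : ℝ) ^ 3) ^ (X.card + Y.card) := by
  have hr := rho_nonneg ht
  have hn0 : (0 : ℝ) < n := by positivity
  have hlog : 0 ≤ Real.log n := Real.log_natCast_nonneg n
  set Pp : Finset (Sym2 (Fin n)) := (X ×ˢ Y).image (fun z => s(z.1, z.2)) with hPp
  have hcard : (Pp.card : ℝ) ≤ X.card * Y.card := by
    have h : Pp.card ≤ X.card * Y.card := by
      rw [← card_product]; exact card_image_le
    exact_mod_cast h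
  have h1 := hTL n t ht Pp (3 * ((X.card + Y.card : ℕ) : ℝ) * Real.log n) (by positivity)
  refine (pr_mono ?_).trans (h1.trans (le_of_eq (exp_log_pow n hn _)))
  intro ω hω
  have h2 : ((X ×ˢ Y).filter (fun z => s(z.1, z.2) ∈ gr ω t)).card ≤ 2 * (gr ω t ∩ Pp).card := by
    refine card_le_mul_card_image_of_maps_to (f := fun z : Fin n × Fin n => s(z.1, z.2)) ?_ 2 ?_
    · intro z hz
      simp only [mem_filter] at hz
      simp only [mem_inter, hPp, mem_image]
      exact ⟨hz.2, z, hz.1, rfl⟩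
    · intro e _
      induction e using Sym2.ind with
      | _ a b =>
        have hsub : (((X ×ˢ Y).filter (fun z => s(z.1, z.2) ∈ gr ω t)).filter
            (fun z => s(z.1, z.2) = s(a, b))) ⊆ {(a, b), (b, a)} := by
          intro z hz
          simp only [mem_filter] at hz
          have h3 := hz.2
          rw [Sym2.eq_iff] at h3
          simp only [mem_insert, mem_singleton, Prod.ext_iff]
          exact h3
        exact (card_le_card hsub).trans card_le_two
  have h3 : (((X ×ˢ Y).filter (fun z => s(z.1, z.2) ∈ gr ω t)).card : ℝ) ≤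
      2 * ((gr ω t ∩ Pp).card : ℝ) := by exact_mod_cast h2
  rw [not_le] at hω
  push_cast
  have h4 : 2 * rho n t * (Pp.card : ℝ) ≤ 2 * rho n t * (X.card * Y.card) := by gcongr
  nlinarith

theorem t_GOOD : S_TL → S_GOOD := by
  intro hTL n t hn ht
  have hn0 : (0 : ℝ) < n := by positivity
  have hn2 : (2 : ℝ) ≤ n := by exact_mod_cast hn
  set NE : Finset (Finset (Fin n)) := (univ : Finset (Finset (Fin n))).filter (fun X => X.Nonempty) with hNE
  have h1 : pr (fun ω : Om n => ¬ Good (2 * rho n t * n + 6 * Real.log n) (4 * rho n t)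
      (12 * Real.log n) (gr ω t)) ≤
      pr (fun ω : Om n => (∃ x ∈ (univ : Finset (Fin n)),
        ¬ ((((univ : Finset (Fin n)).filter (fun y => s(x, y) ∈ gr ω t)).card : ℝ) ≤
          2 * rho n t * n + 6 * Real.log n)) ∨
        (∃ Z ∈ NE ×ˢ NE, ¬ ((((Z.1 ×ˢ Z.2).filter (fun z => s(z.1, z.2) ∈ gr ω t)).card : ℝ) ≤
          4 * rho n t * Z.1.card * Z.2.card + 12 * Real.log n * (Z.1.card + Z.2.card)))) := by
    apply pr_mono
    intro ω hω
    by_contra hcon
    push Not at hcon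
    apply hω
    refine ⟨fun x => hcon.1 x (mem_univ _), fun X Y => ?_⟩
    by_cases hX : X.Nonempty
    · by_cases hY : Y.Nonempty
      · exact hcon.2 (X, Y) (by simp [hNE, hX, hY])
      · rw [not_nonempty_iff_eq_empty] at hY
        subst hY
        have := rho_nonneg ht
        have hlog : 0 ≤ Real.log n := Real.log_natCast_nonneg n
        simp only [product_empty, filter_empty, card_empty, Nat.cast_zero, mul_zero, zero_add, add_zero]
        positivity
    · rw [not_nonempty_iff_eq_empty] at hX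
      subst hX
      have := rho_nonneg ht
      have hlog : 0 ≤ Real.log n := Real.log_natCast_nonneg n
      simp only [empty_product, filter_empty, card_empty, Nat.cast_zero, mul_zero, zero_mul, zero_add]
      positivity
  refine h1.trans ((pr_or _ _).trans ?_)
  have h2 := pr_union (n := n) (univ : Finset (Fin n)) (fun x ω =>
    ¬ ((((univ : Finset (Fin n)).filter (fun y => s(x, y) ∈ gr ω t)).card : ℝ) ≤
          2 * rho n t * n + 6 * Real.log n))
  have h3 : ∑ x ∈ (univ : Finset (Fin n)), pr (fun ω : Om n =>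
      ¬ ((((univ : Finset (Fin n)).filter (fun y => s(x, y) ∈ gr ω t)).card : ℝ) ≤
          2 * rho n t * n + 6 * Real.log n)) ≤ 1 / (n : ℝ) ^ 2 := by
    refine (sum_le_sum (fun x _ => deg_bad hTL n t hn ht x)).trans (le_of_eq ?_)
    simp only [sum_const, card_univ, Fintype.card_fin, nsmul_eq_mul]
    field_simp
  have h4 := pr_union (n := n) (NE ×ˢ NE) (fun Z ω =>
    ¬ ((((Z.1 ×ˢ Z.2).filter (fun z => s(z.1, z.2) ∈ gr ω t)).card : ℝ) ≤
          4 * rho n t * Z.1.card * Z.2.card + 12 * Real.log n * (Z.1.card + Z.2.card)))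
  have h5 : ∑ Z ∈ NE ×ˢ NE, pr (fun ω : Om n =>
      ¬ ((((Z.1 ×ˢ Z.2).filter (fun z => s(z.1, z.2) ∈ gr ω t)).card : ℝ) ≤
          4 * rho n t * Z.1.card * Z.2.card + 12 * Real.log n * (Z.1.card + Z.2.card))) ≤
      (2 / (n : ℝ) ^ 2) * (2 / (n : ℝ) ^ 2) := by
    refine (sum_le_sum (fun Z _ => disc_bad hTL n t hn ht Z.1 Z.2)).trans ?_
    have h6 : ∑ Z ∈ NE ×ˢ NE, (1 / (n : ℝ) ^ 3) ^ (Z.1.card + Z.2.card) =
        (∑ X ∈ NE, (1 / (n : ℝ) ^ 3) ^ X.card) * (∑ Y ∈ NE, (1 / (n : ℝ) ^ 3) ^ Y.card) := by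
      rw [sum_mul_sum, sum_product]
      apply sum_congr rfl; intro X _
      apply sum_congr rfl; intro Y _
      rw [pow_add]
    rw [h6]
    have h7 := sum_nonempty n hn
    have h8 : 0 ≤ ∑ X ∈ NE, (1 / (n : ℝ) ^ 3) ^ X.card := sum_nonneg (fun _ _ => by positivity)
    exact mul_le_mul h7 h7 h8 (by positivity)
  refine (add_le_add (h2.trans h3) (h4.trans h5)).trans ?_
  set u : ℝ := 1 / (n : ℝ) with hu
  have hu0 : 0 ≤ u := by positivity
  have hu1 : u ≤ 1 / 2 := by
    rw [hu, div_le_div_iff_of_pos_left one_pos hn0 (by norm_num)]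
    exact hn2
  have e1 : 1 / (n : ℝ) ^ 2 = u ^ 2 := by rw [hu]; ring
  have e2 : 2 / (n : ℝ) ^ 2 = 2 * u ^ 2 := by rw [hu]; ring
  have e3 : 2 / (n : ℝ) = 2 * u := by rw [hu]; ring
  rw [e1, e2, e3]
  have f1 : u ^ 2 ≤ u * (1 / 2) := by nlinarith
  have f2 : u ^ 2 * u ^ 2 ≤ (u * (1 / 2)) * (u * (1 / 2)) :=
    mul_le_mul f1 f1 (by positivity) (by positivity)
  nlinarith

end

end Pool.Agent.J4H46.K5
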