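import Pool.Agent.J4H87.K5.Stm

set_option autoImplicit false

namespace Pool.Agent.J4H46.K5

open Finset
open scoped Classical
open Pool.Agent.J4H87.K5

noncomputable section

lemma pr_nonneg {n : ℕ} (E : Om n → Prop) : 0 ≤ pr E := by unfold pr; positivity

lemma pr_le_one {n : ℕ} (E : Om n → Prop) : pr E ≤ 1 := by
  unfold pr
  rcases Nat.eq_zero_or_pos (Fintype.card (Om n)) with h | h
  · simp [h]
  · rw [div_le_one (by exact_mod_cast h)]
    exact_mod_cast (card_le_univ _)

lemma pr_mono {n : ℕ} {E F : Om n → Prop} (h : ∀ ω, E ω → F ω) : pr E ≤ pr F := by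
  unfold pr
  apply div_le_div_of_nonneg_right _ (by positivity)
  exact_mod_cast card_le_card (fun ω hω => by
    simp only [mem_filter, mem_univ, true_and] at hω ⊢
    exact h ω hω)

/-- union bound over a finite set -/
lemma pr_union {n : ℕ} {ι : Type*} (T : Finset ι) (E : ι → Om n → Prop) :
    pr (fun ω => ∃ i ∈ T, E i ω) ≤ ∑ i ∈ T, pr (E i) := by
  unfold pr
  rw [← Finset.sum_div]
  apply div_le_div_of_nonneg_right _ (by positivity)
  rw [← Nat.cast_sum]
  apply Nat.cast_le.mpr
  refine le_trans (card_le_card ?_) card_biUnion_le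
  intro ω hω
  simp only [mem_filter, mem_univ, true_and, mem_biUnion] at hω ⊢
  exact hω

lemma pr_or {n : ℕ} (E F : Om n → Prop) : pr (fun ω => E ω ∨ F ω) ≤ pr E + pr F := by
  have h := pr_union (n := n) (univ : Finset Bool) (fun b => if b = true then E else F)
  refine (pr_mono ?_).trans (h.trans ?_)
  · intro ω hω
    rcases hω with hω | hω
    · exact ⟨true, mem_univ _, by simpa using hω⟩
    · exact ⟨false, mem_univ _, by simpa using hω⟩
  · simp

lemma markov {n : ℕ} (E : Om n → Prop) (f : Om n → ℝ) (a : ℝ) (hf : ∀ ω, 0 ≤ f ω)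
    (h : ∀ ω, E ω → a ≤ f ω) : pr E * a ≤ ex f := by
  unfold pr ex
  rw [div_mul_eq_mul_div]
  apply div_le_div_of_nonneg_right _ (by positivity)
  calc ((univ.filter E).card : ℝ) * a = ∑ ω ∈ univ.filter E, a := by simp
    _ ≤ ∑ ω ∈ univ.filter E, f ω := sum_le_sum (fun ω hω => h ω (by simpa using hω))
    _ ≤ ∑ ω, f ω := sum_le_univ_sum_of_nonneg hf

lemma rho_nonneg {n t : ℕ} (ht : 2 * t ≤ n.choose 2) : 0 ≤ rho n t := by
  unfold rho
  apply div_nonneg (by positivity)
  have : (2 * (t : ℝ)) ≤ (n.choose 2 : ℝ) := by exact_mod_cast ht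
  have h0 : (0 : ℝ) ≤ t := by positivity
  linarith

lemma pr_subset (hCL : S_CL) {n t : ℕ} (ht : 2 * t ≤ n.choose 2) (hM : 0 < n.choose 2)
    (S : Finset (Sym2 (Fin n))) : pr (fun ω : Om n => S ⊆ gr ω t) ≤ rho n t ^ S.card := by
  have hMt : 0 < (n.choose 2 : ℝ) - t := by
    have h1 : (2 * (t : ℝ)) ≤ (n.choose 2 : ℝ) := by exact_mod_cast ht
    have h2 : (0 : ℝ) < (n.choose 2 : ℝ) := by exact_mod_cast hM
    linarith
  set c : Fin S.card → Sym2 (Fin n) := fun i => (S.equivFin.symm i : Sym2 (Fin n)) with hc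
  have hcinj : Function.Injective c := by
    intro i j hij
    exact S.equivFin.symm.injective (Subtype.ext hij)
  set T : Finset (Fin S.card → Fin (n.choose 2)) :=
    univ.filter (fun s => Function.Injective s ∧ ∀ i, (s i).1 < t) with hT
  have h1 : pr (fun ω : Om n => S ⊆ gr ω t) ≤ pr (fun ω : Om n => ∃ s ∈ T, ∀ i, off ω (s i) = c i) := by
    apply pr_mono
    intro ω hω
    have hex : ∀ i, ∃ j : Fin (n.choose 2), j.1 < t ∧ off ω j = c i := by
      intro i
      have h := hω (S.equivFin.symm i).2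
      simpa [gr] using h
    choose s hs using hex
    refine ⟨s, ?_, fun i => (hs i).2⟩
    simp only [hT, mem_filter, mem_univ, true_and]
    refine ⟨?_, fun i => (hs i).1⟩
    intro i j hij
    apply hcinj
    rw [← (hs i).2, ← (hs j).2, hij]
  have h2 : ∀ s ∈ T, pr (fun ω : Om n => ∀ i, off ω (s i) = c i) ≤
      (1 / ((n.choose 2 : ℝ) - t)) ^ S.card := by
    intro s hs
    simp only [hT, mem_filter, mem_univ, true_and] at hs
    have h := hCL n 0 t S.card (fun _ => True) (fun _ _ _ => Iff.rfl) (by omega) s hs.1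
      (fun i => ⟨Nat.zero_le _, hs.2 i⟩) c
    have h1 := pr_le_one (fun _ : Om n => True)
    simp only [true_and] at h
    rw [div_pow, one_pow, le_div_iff₀ (by positivity)]
    exact h.trans h1
  have h3 : (T.card : ℝ) ≤ (t : ℝ) ^ S.card := by
    have hsub : T ⊆ Fintype.piFinset
        (fun _ : Fin S.card => (univ : Finset (Fin (n.choose 2))).filter (fun j => j.1 < t)) := by
      intro s hs
      simp only [hT, mem_filter, mem_univ, true_and] at hs
      simp only [Fintype.mem_piFinset, mem_filter, mem_univ, true_and]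
      exact hs.2
    have hle : ((univ : Finset (Fin (n.choose 2))).filter (fun j => j.1 < t)).card ≤ t := by
      have h := card_le_card_of_injOn (s := (univ : Finset (Fin (n.choose 2))).filter (fun j => j.1 < t))
        (t := Finset.range t) (fun j => j.1) (by
          intro j hj
          simpa using hj) (by
          intro a _ b _ hab
          exact Fin.ext hab)
      simpa using h
    have h4 := card_le_card hsub
    rw [Fintype.card_piFinset] at h4
    simp only [prod_const, card_univ, Fintype.card_fin] at h4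
    have h5 : T.card ≤ t ^ S.card := h4.trans (Nat.pow_le_pow_left hle _)
    exact_mod_cast h5
  calc pr (fun ω : Om n => S ⊆ gr ω t)
      ≤ ∑ s ∈ T, pr (fun ω : Om n => ∀ i, off ω (s i) = c i) := h1.trans (pr_union T _)
    _ ≤ ∑ s ∈ T, (1 / ((n.choose 2 : ℝ) - t)) ^ S.card := sum_le_sum h2
    _ = T.card * (1 / ((n.choose 2 : ℝ) - t)) ^ S.card := by
        rw [sum_const, nsmul_eq_mul]
    _ ≤ t ^ S.card * (1 / ((n.choose 2 : ℝ) - t)) ^ S.card := by
        apply mul_le_mul_of_nonneg_right h3; positivity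
    _ = rho n t ^ S.card := by
        rw [← mul_pow]; congr 1; unfold rho; ring

lemma ex_two_pow (hCL : S_CL) {n t : ℕ} (ht : 2 * t ≤ n.choose 2) (hM : 0 < n.choose 2)
    (Pp : Finset (Sym2 (Fin n))) :
    ex (fun ω : Om n => (2 : ℝ) ^ (gr ω t ∩ Pp).card) ≤ (1 + rho n t) ^ Pp.card := by
  have h : ∀ ω : Om n, (2 : ℝ) ^ (gr ω t ∩ Pp).card =
      ∑ S ∈ Pp.powerset, if S ⊆ gr ω t then (1 : ℝ) else 0 := by
    intro ω
    rw [← sum_filter, sum_const, nsmul_eq_mul, mul_one]
    have h1 : (Pp.powerset.filter (fun S => S ⊆ gr ω t)) = (gr ω t ∩ Pp).powerset := by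
      ext S
      simp only [mem_filter, mem_powerset, subset_inter_iff]
      exact and_comm
    rw [h1, card_powerset]; push_cast; rfl
  have h2 : ex (fun ω : Om n => (2 : ℝ) ^ (gr ω t ∩ Pp).card) =
      ∑ S ∈ Pp.powerset, pr (fun ω : Om n => S ⊆ gr ω t) := by
    unfold ex pr
    rw [← Finset.sum_div]
    congr 1
    rw [sum_congr rfl (fun ω _ => h ω), sum_comm]
    apply sum_congr rfl
    intro S _
    rw [← sum_filter, sum_const, nsmul_eq_mul, mul_one]
    congr!
  rw [h2]
  calc ∑ S ∈ Pp.powerset, pr (fun ω : Om n => S ⊆ gr ω t)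
      ≤ ∑ S ∈ Pp.powerset, rho n t ^ S.card := sum_le_sum (fun S _ => pr_subset hCL ht hM S)
    _ = (rho n t + 1) ^ Pp.card := by
        rw [← Finset.sum_pow_mul_eq_add_pow]
        simp
    _ = (1 + rho n t) ^ Pp.card := by rw [add_comm]

theorem t_TL : S_CL → S_TL := by
  intro hCL n t ht Pp lam hlam
  rcases Nat.eq_zero_or_pos (n.choose 2) with hM | hM
  · have ht0 : t = 0 := by omega
    subst ht0
    rcases hlam.eq_or_lt with h0 | h0
    · subst h0
      simpa using pr_le_one _
    · have : pr (fun ω : Om n => 2 * rho n 0 * Pp.card + 2 * lam ≤ ((gr ω 0 ∩ Pp).card : ℝ)) = 0 := by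
        unfold pr
        have h1 : (univ.filter (fun ω : Om n =>
            2 * rho n 0 * Pp.card + 2 * lam ≤ ((gr ω 0 ∩ Pp).card : ℝ))) = ∅ := by
          apply filter_false_of_mem
          intro ω _
          have h2 : gr ω 0 = ∅ := by simp [gr]
          simp only [h2, empty_inter, card_empty, Nat.cast_zero, not_le]
          unfold rho
          simp only [Nat.cast_zero, zero_div, mul_zero, zero_mul, zero_add]
          linarith
        rw [h1]; simp
      rw [this]; positivity
  · have hr := rho_nonneg ht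
    set P : ℝ := (Pp.card : ℝ) with hP
    have hP0 : 0 ≤ P := by positivity
    have h1 := ex_two_pow hCL ht hM Pp
    have h2 := markov (fun ω : Om n => 2 * rho n t * P + 2 * lam ≤ ((gr ω t ∩ Pp).card : ℝ))
      (fun ω : Om n => (2 : ℝ) ^ (gr ω t ∩ Pp).card) (Real.exp (rho n t * P + lam))
      (fun ω => by positivity) (by
        intro ω hω
        have hlog : (1 : ℝ) / 2 ≤ Real.log 2 := by
          have := Real.log_two_gt_d9
          linarith
        rw [← Real.rpow_natCast, Real.rpow_def_of_pos (by norm_num : (0 : ℝ) < 2)]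
        apply Real.exp_le_exp.mpr
        have h3 : 0 ≤ rho n t * P + lam := by positivity
        nlinarith [mul_le_mul_of_nonneg_left hω (by linarith : (0 : ℝ) ≤ Real.log 2),
          mul_le_mul_of_nonneg_right hlog h3])
    have h3 : (1 + rho n t) ^ Pp.card ≤ Real.exp (rho n t * P) := by
      have h4 : 1 + rho n t ≤ Real.exp (rho n t) := by
        have := Real.add_one_le_exp (rho n t)
        linarith
      calc (1 + rho n t) ^ Pp.card ≤ (Real.exp (rho n t)) ^ Pp.card := by
            gcongr
        _ = Real.exp (rho n t * P) := by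
            rw [← Real.exp_nat_mul, mul_comm]
    have h5 := h2.trans (h1.trans h3)
    have h6 : pr (fun ω : Om n => 2 * rho n t * P + 2 * lam ≤ ((gr ω t ∩ Pp).card : ℝ)) ≤
        Real.exp (rho n t * P) / Real.exp (rho n t * P + lam) := by
      rw [le_div_iff₀ (Real.exp_pos _)]; exact h5
    refine h6.trans (le_of_eq ?_)
    rw [← Real.exp_sub]
    congr 1; ring

end

end Pool.Agent.J4H46.K5
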